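import Mathlib
import Pool.Agent.H173R3.QueneauSet

/-!
# The Queneau variant (Q2): a seed whose difference sequence is not eventually periodic

There is a finite seed of positive integers `u 0 < u 1 < ... < u (m - 1)` such that the sequence
continued by the Queneau rule (`u n` is the least integer above `u (n - 1)` that is not a sum
`u i + u j` with `i < j < n`) has a difference sequence that is not eventually periodic.
-/

set_option autoImplicit false

namespace Pool.Agent.Results.MP_7c6dee_nt.QueneauAperiodic

open Pool.Agent.H173R3.QueneauSet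

theorem result :
    ∃ (m : ℕ) (u : ℕ → ℕ), 1 ≤ m ∧
      (∀ i, i < m → 0 < u i) ∧
      (∀ i, i + 1 < m → u i < u (i + 1)) ∧
      (∀ n, m ≤ n →
        IsLeast {x : ℕ | u (n - 1) < x ∧ ∀ i j, i < j → j < n → x ≠ u i + u j} (u n)) ∧
      ¬ ∃ N p : ℕ, 1 ≤ p ∧ ∀ n, N ≤ n →
        ((u (n + p + 1) : ℤ) - (u (n + p) : ℤ)) = ((u (n + 1) : ℤ) - (u n : ℤ)) := by
  classical
  have hinf : (Set.ofPred S).Infinite := S_inf
  have hmono : StrictMono (Nat.nth S) := Nat.nth_strictMono hinf
  have hmem : ∀ n, S (Nat.nth S n) := Nat.nth_mem_of_infinite hinf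
  have hsurj : ∀ x, S x → ∃ k, Nat.nth S k = x := by
    intro x hx
    obtain ⟨k, _, hk⟩ := Nat.exists_lt_card_nth_eq hx
    exact ⟨k, hk⟩
  refine ⟨2001, Nat.nth S, by norm_num, fun i _ => S_pos (hmem i),
    fun i _ => hmono (Nat.lt_succ_self i), ?_, ?_⟩
  · intro n hn
    constructor
    · refine ⟨hmono (by omega), ?_⟩
      intro i j hij _ h
      have h1 := hmem n
      rw [h] at h1
      exact sum_free (hmono hij) (hmem i) (hmem j) h1
    · rintro x ⟨hx1, hx2⟩
      by_contra hlt
      push Not at hlt
      have hn1 : n - 1 ≤ Nat.nth S (n - 1) := hmono.id_le (n - 1)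
      have hxS : ¬ S x := by
        intro hS
        obtain ⟨k, hk⟩ := hsurj x hS
        rw [← hk] at hx1 hlt
        have h1 := hmono.lt_iff_lt.1 hx1
        have h2 := hmono.lt_iff_lt.1 hlt
        omega
      obtain ⟨s, t, hst, hs, ht, hsum⟩ := cover (x := x) (by omega) hxS
      obtain ⟨i, rfl⟩ := hsurj s hs
      obtain ⟨j, rfl⟩ := hsurj t ht
      have hi0 := S_pos hs
      have h3 : Nat.nth S j < Nat.nth S n := by omega
      exact hx2 i j (hmono.lt_iff_lt.1 hst) (hmono.lt_iff_lt.1 h3) hsum.symm
  · rintro ⟨N, p, hp, hper⟩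
    have hD : Nat.nth S N < Nat.nth S (N + p) := hmono (by omega)
    set D := Nat.nth S (N + p) - Nat.nth S N with hDdef
    have hshift : ∀ k, Nat.nth S (N + k + p) = Nat.nth S (N + k) + D := by
      intro k
      induction k with
      | zero =>
        have e0 : N + 0 + p = N + p := by omega
        have e1 : N + 0 = N := by omega
        rw [e0, e1]
        omega
      | succ k ih =>
        have h1 := hper (N + k) (by omega)
        have e1 : N + (k + 1) + p = N + k + p + 1 := by omega
        have e2 : N + (k + 1) = N + k + 1 := by omega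
        rw [e1, e2]
        omega
    refine aperiodic D (by omega) (Nat.nth S N) ?_
    intro n hn
    constructor
    · intro hS
      obtain ⟨k, rfl⟩ := hsurj n hS
      have hk : N ≤ k := hmono.le_iff_le.1 hn
      obtain ⟨j, rfl⟩ := Nat.exists_eq_add_of_le hk
      rw [← hshift j]
      exact hmem _
    · intro hS
      obtain ⟨k, hk⟩ := hsurj _ hS
      have h1 : Nat.nth S (N + p) ≤ Nat.nth S k := by
        rw [hk]; omega
      have h2 : N + p ≤ k := hmono.le_iff_le.1 h1
      obtain ⟨j, rfl⟩ := Nat.exists_eq_add_of_le h2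
      have h3 := hshift j
      have e : N + p + j = N + j + p := by omega
      rw [e, h3] at hk
      have h4 : Nat.nth S (N + j) = n := by omega
      rw [← h4]
      exact hmem _

end Pool.Agent.Results.MP_7c6dee_nt.QueneauAperiodic
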